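import Pool.Agent.Helper27.IS.Exc5

/-!
# Half-residue sets with many exceptional elements

For every finite set `E` of non-squares, two of which have a product that is not a square, there is
a set `A` satisfying the half-residue condition, which consists of `E` and of squares of primes, is
not `≪ √X / (log X) ^ #E`, and such that a quadratic polynomial containing all but finitely many
elements of `A` contains no element of `E`.  In particular Q1 becomes false if at most `99`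
exceptional elements are allowed in its second alternative.
-/

set_option autoImplicit false

open Finset Filter Real Pool.Agent.Helper27.IS

namespace Pool.Agent.Results.MP_8b36bc_nt.ManyExceptions

/-- `A` occupies at most `(p + 1) / 2` residue classes modulo `p`, for all large primes `p`. -/
def HalfResidue (A : Set ℕ) : Prop :=
  ∃ P : ℕ, ∀ p : ℕ, p.Prime → P ≤ p →
    ((((fun a : ℕ => (a : ZMod p)) '' A).ncard : ℝ) ≤ ((p : ℝ) + 1) / 2)

/-- `#(B ∩ [1, X]) ≤ C √X / (log X) ^ K` for all `X ≥ 2`. -/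
def Small (K : ℕ) (B : Set ℕ) : Prop :=
  ∃ C : ℝ, ∀ X : ℕ, 2 ≤ X →
    ((B ∩ Set.Icc 1 X).ncard : ℝ) ≤ C * Real.sqrt (X : ℝ) / (Real.log (X : ℝ)) ^ K

/-- The natural numbers which are values of `φ` at integers. -/
def values (φ : Polynomial ℚ) : Set ℕ := {a | (a : ℚ) ∈ Set.range (fun n : ℤ => φ.eval (n : ℚ))}

/-- The number of squares modulo `p`. -/
lemma ncard_squares (p : ℕ) (hp : p.Prime) : {x : ZMod p | IsSquare x}.ncard ≤ p / 2 + 1 := by
  have : Fact p.Prime := ⟨hp⟩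
  classical
  have h1 : {x : ZMod p | IsSquare x} ⊆
      (((range (p / 2 + 1)).image (fun r : ℕ => (r : ZMod p) ^ 2) : Finset (ZMod p)) : Set (ZMod p)) := by
    rintro x ⟨y, rfl⟩
    rw [Finset.mem_coe, mem_image]
    refine ⟨y.valMinAbs.natAbs, ?_, ?_⟩
    · rw [mem_range]
      have := ZMod.natAbs_valMinAbs_le y
      omega
    · have h2 : (((y.valMinAbs.natAbs : ℕ) : ℤ) : ZMod p) ^ 2 = ((y.valMinAbs : ℤ) : ZMod p) ^ 2 := by
        rw [← Int.cast_pow, ← Int.cast_pow, Int.natAbs_sq]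
      rw [Int.cast_natCast] at h2
      rw [h2, ZMod.coe_valMinAbs, sq]
  calc _ ≤ _ := Set.ncard_le_ncard h1 (Finset.finite_toSet _)
    _ = _ := Set.ncard_coe_finset _
    _ ≤ (range (p / 2 + 1)).card := card_image_le
    _ = _ := card_range _

lemma not_small {E : Finset ℕ} (D : Data E) : ¬ Small E.card D.A := by
  rintro ⟨C, hC⟩
  obtain ⟨n, hn⟩ := exists_nat_gt (C / 2 ^ E.card)
  set Y := D.Y (n + 1) with hY
  have hY3 : 3 ≤ Y := (D.hY n).2
  have hYr : (3:ℝ) ≤ Y := by exact_mod_cast hY3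
  have hl : 0 < log (Y : ℝ) := log_pos (by linarith)
  have h1 := hC (Y ^ 2) (by nlinarith)
  have h2 : (D.S n).card ≤ (D.A ∩ Set.Icc 1 (Y ^ 2)).ncard := by
    have hinj : Set.InjOn (fun q : ℕ => q ^ 2) (D.S n : Set ℕ) := by
      intro a _ b _ h
      exact Nat.pow_left_injective (n := 2) (by norm_num) h
    rw [← card_image_of_injOn hinj, ← Set.ncard_coe_finset]
    apply Set.ncard_le_ncard _ ((Set.finite_Icc 1 (Y ^ 2)).subset Set.inter_subset_right)
    intro x hx
    rw [mem_coe, mem_image] at hx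
    obtain ⟨q, hq, rfl⟩ := hx
    obtain ⟨hqp, hqY, _⟩ := D.hS n q hq
    refine ⟨Or.inr ⟨n, q, hq, rfl⟩, ?_, ?_⟩
    · exact Nat.one_le_pow _ _ hqp.pos
    · exact Nat.pow_le_pow_left hqY 2
  have h3 := D.hcard n
  rw [← hY] at h3
  have h4 : (((n + 1 : ℕ) : ℝ)) * Y / (log Y) ^ E.card ≤
      C * √((Y ^ 2 : ℕ) : ℝ) / (log ((Y ^ 2 : ℕ) : ℝ)) ^ E.card :=
    h3.trans (le_trans (by exact_mod_cast h2) h1)
  have h5 : √((Y ^ 2 : ℕ) : ℝ) = Y := by
    push_cast
    exact sqrt_sq (by linarith)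
  have h6 : log ((Y ^ 2 : ℕ) : ℝ) = 2 * log Y := by
    push_cast
    rw [log_pow]
    norm_num
  rw [h5, h6, mul_pow] at h4
  have h7 : C * (Y : ℝ) / (2 ^ E.card * (log (Y : ℝ)) ^ E.card) =
      (C / 2 ^ E.card) * Y / (log (Y : ℝ)) ^ E.card := by
    field_simp
  rw [h7] at h4
  have h8 : (C / 2 ^ E.card) * Y / (log (Y : ℝ)) ^ E.card < (((n + 1 : ℕ) : ℝ)) * Y / (log Y) ^ E.card := by
    apply div_lt_div_of_pos_right _ (by positivity)
    apply mul_lt_mul_of_pos_right _ (by linarith)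
    push_cast
    linarith
  linarith

lemma data_half {E : Finset ℕ} (hE : ∀ e ∈ E, ¬ IsSquare e) (D : Data E) : HalfResidue D.A := by
  refine ⟨D.P 0 + 1, fun p hp hpP => ?_⟩
  have h1 := D.half (fun e he h0 => hE e he (by rw [h0]; exact ⟨0, by simp⟩)) p hp (by omega)
  have h2 := h1.trans (ncard_squares p hp)
  have hp3 := D.hP0
  have hodd : p % 2 = 1 := by
    rcases hp.eq_two_or_odd with h | h
    · omega
    · exact h
  have h3 : 2 * ((fun a : ℕ => (a : ZMod p)) '' D.A).ncard ≤ p + 1 := by omega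
  have h4 : (2 * (((fun a : ℕ => (a : ZMod p)) '' D.A).ncard : ℝ)) ≤ p + 1 := by exact_mod_cast h3
  linarith

lemma data_rigid {E : Finset ℕ} (hE : ∀ e ∈ E, ¬ IsSquare e) (D : Data E) (ψ : Polynomial ℚ)
    (hψ : ψ.natDegree = 2) (hfin : (D.A \ values ψ).Finite) : (E : Set ℕ) ⊆ D.A \ values ψ := by
  intro e he
  refine ⟨Or.inl he, ?_⟩
  intro heψ
  obtain ⟨α, β, hα, hαβ⟩ := quad ψ hψ
  obtain ⟨N, hN⟩ := hfin.bddAbove
  obtain ⟨hβ, s, hs⟩ := D.rigid α β hα (N + 1) (by
    intro n q hq hNq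
    apply hαβ
    by_contra hcon
    have h1 : q ^ 2 ∈ D.A \ values ψ := by
      refine ⟨Or.inr ⟨n, q, hq, rfl⟩, ?_⟩
      intro h2
      exact hcon h2
    have h2 : q ^ 2 ≤ N := hN h1
    have h3 : q * 1 ≤ q * q := Nat.mul_le_mul_left _ (by omega)
    rw [sq] at h2
    omega)
  obtain ⟨m, hm⟩ := hαβ e heψ
  rw [hβ, add_zero, hs] at hm
  have hs0 : s ≠ 0 := by
    rintro rfl
    exact hα (by rw [hs]; ring)
  have h1 : s ^ 2 ∣ m ^ 2 := ⟨e, by rw [hm]; ring⟩
  rw [Int.pow_dvd_pow_iff (by norm_num)] at h1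
  obtain ⟨t, ht⟩ := h1
  apply hE e he
  refine ⟨t.natAbs, ?_⟩
  have h2 : s ^ 2 * (e : ℤ) = s ^ 2 * (t * t) := by
    calc s ^ 2 * (e : ℤ) = m ^ 2 := by rw [hm]; ring
      _ = s ^ 2 * (t * t) := by rw [ht]; ring
  have h3 : (e : ℤ) = t * t := mul_left_cancel₀ (pow_ne_zero 2 hs0) h2
  rw [← Int.natAbs_mul_self] at h3
  exact_mod_cast h3

/-- The construction. -/
theorem main (E : Finset ℕ) (hE : ∀ e ∈ E, ¬ IsSquare e)
    (h12 : ∃ e₁ ∈ E, ∃ e₂ ∈ E, ¬ IsSquare (e₁ * e₂)) :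
    ∃ A : Set ℕ, HalfResidue A ∧ ¬ Small E.card A ∧ (E : Set ℕ) ⊆ A ∧
      (∀ a ∈ A, a ∈ E ∨ ∃ q : ℕ, q.Prime ∧ a = q ^ 2) ∧
      ∀ ψ : Polynomial ℚ, ψ.natDegree = 2 → (A \ values ψ).Finite → (E : Set ℕ) ⊆ A \ values ψ := by
  obtain ⟨e1, he1, e2, he2, h12⟩ := h12
  obtain ⟨D⟩ := exists_data E hE e1 e2 he1 he2 h12
  refine ⟨D.A, data_half hE D, not_small D, Set.subset_union_left, ?_, data_rigid hE D⟩
  rintro a (ha | ⟨n, q, hq, rfl⟩)
  · left; exact ha
  · right; exact ⟨q, (D.hS n q hq).1, rfl⟩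

lemma values_sq (a : ℕ) : a ∈ values (Polynomial.X ^ 2) ↔ IsSquare a := by
  constructor
  · rintro ⟨n, hn⟩
    simp only [Polynomial.eval_pow, Polynomial.eval_X] at hn
    refine ⟨n.natAbs, ?_⟩
    have h1 : (n : ℤ) ^ 2 = a := by exact_mod_cast hn
    rw [sq, ← Int.natAbs_mul_self] at h1
    exact_mod_cast h1.symm
  · rintro ⟨r, rfl⟩
    refine ⟨(r : ℤ), ?_⟩
    simp only [Polynomial.eval_pow, Polynomial.eval_X]
    push_cast
    ring

/-- An exceptional set with `K` elements. -/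
def exSet (K : ℕ) : Finset ℕ := insert 3 ((Finset.Icc 1 (K - 1)).image (fun i => 2 * i ^ 2))

lemma not_sq_two (i : ℕ) (hi : 1 ≤ i) : ¬ IsSquare (2 * i ^ 2) := by
  rintro ⟨r, hr⟩
  have h1 : i ^ 2 ∣ r ^ 2 := ⟨2, by rw [sq r, ← hr]; ring⟩
  rw [Nat.pow_dvd_pow_iff (by norm_num)] at h1
  obtain ⟨t, ht⟩ := h1
  have h2 : i ^ 2 * 2 = i ^ 2 * (t * t) := by
    rw [mul_comm, hr, ht]
    ring
  have h3 : 2 = t * t := Nat.eq_of_mul_eq_mul_left (by positivity) h2
  have h4 : t < 2 := by nlinarith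
  interval_cases t <;> omega

lemma not_sq_three : ¬ IsSquare 3 := by
  rintro ⟨r, hr⟩
  have h4 : r < 2 := by nlinarith
  interval_cases r <;> omega

lemma not_sq_six : ¬ IsSquare 6 := by
  rintro ⟨r, hr⟩
  have h4 : r < 3 := by nlinarith
  interval_cases r <;> omega

lemma exSet_card (K : ℕ) (hK : 1 ≤ K) : (exSet K).card = K := by
  unfold exSet
  rw [card_insert_of_notMem, card_image_of_injective, Nat.card_Icc]
  · omega
  · intro i j h
    simp only at h
    exact Nat.pow_left_injective (n := 2) (by norm_num) (by omega : i ^ 2 = j ^ 2)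
  · rw [mem_image]
    rintro ⟨i, _, h⟩
    omega

lemma exSet_not_sq (K : ℕ) : ∀ e ∈ exSet K, ¬ IsSquare e := by
  intro e he
  unfold exSet at he
  rw [mem_insert, mem_image] at he
  rcases he with rfl | ⟨i, hi, rfl⟩
  · exact not_sq_three
  · exact not_sq_two i (mem_Icc.1 hi).1

/-- **Main result.** (1) Let `E` be a finite set of non-squares, two of which have a product that is
not a square. There is a half-residue set `A ⊇ E`, all other elements of which are squares of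
primes, which is not `≪ √X / (log X) ^ #E`, and such that every quadratic polynomial which contains
all but finitely many elements of `A` contains no element of `E`.
(2) For every `K ≥ 2` there is a half-residue set `A`, not `≪ √X / (log X) ^ K`, with exactly `K`
elements outside some quadratic polynomial and at least `K` elements outside every one.
(3) Q1 with at most `99` exceptional elements allowed in the second alternative is false. -/
theorem result :
    (∀ E : Finset ℕ, (∀ e ∈ E, ¬ IsSquare e) → (∃ e₁ ∈ E, ∃ e₂ ∈ E, ¬ IsSquare (e₁ * e₂)) →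
      ∃ A : Set ℕ, HalfResidue A ∧ ¬ Small E.card A ∧ (E : Set ℕ) ⊆ A ∧
        (∀ a ∈ A, a ∈ E ∨ ∃ q : ℕ, q.Prime ∧ a = q ^ 2) ∧
        ∀ ψ : Polynomial ℚ, ψ.natDegree = 2 → (A \ values ψ).Finite → (E : Set ℕ) ⊆ A \ values ψ) ∧
    (∀ K : ℕ, 2 ≤ K → ∃ A : Set ℕ, HalfResidue A ∧ ¬ Small K A ∧
      (∃ φ : Polynomial ℚ, φ.natDegree = 2 ∧ (A \ values φ).Finite ∧ (A \ values φ).ncard = K) ∧
      ∀ ψ : Polynomial ℚ, ψ.natDegree = 2 → (A \ values ψ).Finite → K ≤ (A \ values ψ).ncard) ∧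
    ¬ (∀ A : Set ℕ, HalfResidue A → Small 100 A ∨
      ∃ φ : Polynomial ℚ, φ.natDegree = 2 ∧ (A \ values φ).Finite ∧ (A \ values φ).ncard ≤ 99) := by
  have part2 : ∀ K : ℕ, 2 ≤ K → ∃ A : Set ℕ, HalfResidue A ∧ ¬ Small K A ∧
      (∃ φ : Polynomial ℚ, φ.natDegree = 2 ∧ (A \ values φ).Finite ∧ (A \ values φ).ncard = K) ∧
      ∀ ψ : Polynomial ℚ, ψ.natDegree = 2 → (A \ values ψ).Finite → K ≤ (A \ values ψ).ncard := by
    intro K hK
    have h2K : 2 ∈ exSet K := by
      unfold exSet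
      rw [mem_insert, mem_image]
      right
      exact ⟨1, mem_Icc.2 ⟨le_refl _, by omega⟩, by norm_num⟩
    have h3K : 3 ∈ exSet K := mem_insert_self _ _
    obtain ⟨A, h1, h2, h3, h4, h5⟩ := main (exSet K) (exSet_not_sq K)
      ⟨2, h2K, 3, h3K, not_sq_six⟩
    rw [exSet_card K (by omega)] at h2
    have hcard : ((exSet K : Finset ℕ) : Set ℕ).ncard = K := by
      rw [Set.ncard_coe_finset, exSet_card K (by omega)]
    refine ⟨A, h1, h2, ⟨Polynomial.X ^ 2, by simp, ?_⟩, ?_⟩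
    · have h6 : A \ values (Polynomial.X ^ 2) = ((exSet K : Finset ℕ) : Set ℕ) := by
        ext a
        constructor
        · rintro ⟨ha, ha'⟩
          rcases h4 a ha with h | ⟨q, _, hq⟩
          · exact h
          · exfalso
            apply ha'
            rw [values_sq]
            exact ⟨q, by rw [hq, sq]⟩
        · intro ha
          refine ⟨h3 ha, ?_⟩
          rw [values_sq]
          exact exSet_not_sq K a ha
      rw [h6]
      exact ⟨Finset.finite_toSet _, hcard⟩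
    · intro ψ hψ hfin
      rw [← hcard]
      exact Set.ncard_le_ncard (h5 ψ hψ hfin) hfin
  refine ⟨main, part2, ?_⟩
  intro hQ
  obtain ⟨A, h1, h2, _, h4⟩ := part2 100 (by norm_num)
  rcases hQ A h1 with h | ⟨φ, hφ, hfin, hcard⟩
  · exact h2 h
  · have := h4 φ hφ hfin
    omega

end Pool.Agent.Results.MP_8b36bc_nt.ManyExceptions
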