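import Pool.Agent.Helper27.IS.Rigid

/-!
# Rigidity of half-residue sets near quadratic polynomials

Let `A ⊆ ℕ` occupy at most `(p + L) / 2` residue classes modulo every large prime `p` (`L = 1` is
the half-residue condition).  If finitely many quadratic polynomials contain a part of `A` which is
not `≪ √X / (log X) ^ K`, then one quadratic polynomial contains all elements of `A` with at most
`K + L - 1` exceptions.  In particular a half-residue set with a part in a quadratic polynomial that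
is not `≪ √X / (log X) ^ 100` has at most `100` elements outside a quadratic polynomial, and the
question is equivalent to its weak form, which only asks for a part of `A` in a quadratic
polynomial.
-/

set_option autoImplicit false

open Finset Filter Real Pool.Agent.Helper27.IS

namespace Pool.Agent.Results.MP_8b36bc_nt.Rigidity

/-- `A` occupies at most `(p + L) / 2` residue classes modulo `p`, for all large primes `p`. -/
def ResidueCondition (L : ℕ) (A : Set ℕ) : Prop :=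
  ∃ P : ℕ, ∀ p : ℕ, p.Prime → P ≤ p →
    ((((fun a : ℕ => (a : ZMod p)) '' A).ncard : ℝ) ≤ ((p : ℝ) + L) / 2)

/-- `#(B ∩ [1, X]) ≤ C √X / (log X) ^ K` for all `X ≥ 2`. -/
def Small (K : ℕ) (B : Set ℕ) : Prop :=
  ∃ C : ℝ, ∀ X : ℕ, 2 ≤ X →
    ((B ∩ Set.Icc 1 X).ncard : ℝ) ≤ C * Real.sqrt (X : ℝ) / (Real.log (X : ℝ)) ^ K

/-- The natural numbers which are values of `φ` at integers. -/
def values (φ : Polynomial ℚ) : Set ℕ := {a | (a : ℚ) ∈ Set.range (fun n : ℤ => φ.eval (n : ℚ))}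

/-- The statement Q1. -/
def Question : Prop :=
  ∀ A : Set ℕ, ResidueCondition 1 A →
    Small 100 A ∨ ∃ φ : Polynomial ℚ, φ.natDegree = 2 ∧ (A \ values φ).Finite

/-- The weak form of Q1: some quadratic polynomial contains a part of `A` which is not
`≪ √X / (log X) ^ K`. -/
def Weak (K : ℕ) : Prop :=
  ∀ A : Set ℕ, ResidueCondition 1 A →
    Small 100 A ∨ ∃ φ : Polynomial ℚ, φ.natDegree = 2 ∧ ¬ Small K (A ∩ values φ)

lemma Small.union {K : ℕ} {B₁ B₂ : Set ℕ} (h₁ : Small K B₁) (h₂ : Small K B₂) :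
    Small K (B₁ ∪ B₂) := by
  obtain ⟨C₁, h₁⟩ := h₁
  obtain ⟨C₂, h₂⟩ := h₂
  refine ⟨C₁ + C₂, fun X hX => ?_⟩
  have h3 : ((B₁ ∪ B₂) ∩ Set.Icc 1 X).ncard ≤ (B₁ ∩ Set.Icc 1 X).ncard + (B₂ ∩ Set.Icc 1 X).ncard := by
    rw [Set.union_inter_distrib_right]
    exact Set.ncard_union_le _ _
  have h4 : (((B₁ ∪ B₂) ∩ Set.Icc 1 X).ncard : ℝ) ≤ (B₁ ∩ Set.Icc 1 X).ncard + (B₂ ∩ Set.Icc 1 X).ncard := by
    exact_mod_cast h3
  have h5 := h₁ X hX
  have h6 := h₂ X hX
  rw [add_mul, add_div]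
  linarith

lemma Small.mono {K : ℕ} {B₁ B₂ : Set ℕ} (h : B₁ ⊆ B₂) (h₂ : Small K B₂) : Small K B₁ := by
  obtain ⟨C, h₂⟩ := h₂
  refine ⟨C, fun X hX => ?_⟩
  refine le_trans ?_ (h₂ X hX)
  exact_mod_cast Set.ncard_le_ncard (Set.inter_subset_inter_left _ h)
    ((Set.finite_Icc 1 X).subset Set.inter_subset_right)

lemma small_of_finite (K : ℕ) {B : Set ℕ} (hB : B.Finite) : Small K B := by
  refine ⟨B.ncard * (2 * (K + 1)) ^ K, fun X hX => ?_⟩
  have hX2 : (2:ℝ) ≤ X := by exact_mod_cast hX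
  have hlog : 0 < log (X : ℝ) := log_pos (by linarith)
  rw [le_div_iff₀ (by positivity)]
  have h1 : log (X : ℝ) ≤ (X : ℝ) ^ (1 / (2 * ((K : ℝ) + 1))) / (1 / (2 * ((K : ℝ) + 1))) :=
    log_le_rpow_div (by positivity) (by positivity)
  have h2 : (log (X : ℝ)) ^ K ≤ (2 * ((K : ℝ) + 1)) ^ K * √(X : ℝ) := by
    calc (log (X : ℝ)) ^ K ≤ ((X : ℝ) ^ (1 / (2 * ((K : ℝ) + 1))) / (1 / (2 * ((K : ℝ) + 1)))) ^ K := by
          gcongr
      _ = (2 * ((K : ℝ) + 1)) ^ K * ((X : ℝ) ^ (1 / (2 * ((K : ℝ) + 1)))) ^ K := by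
          rw [div_pow, one_div (2 * ((K : ℝ) + 1)), inv_pow, div_inv_eq_mul, mul_comm]
      _ ≤ (2 * ((K : ℝ) + 1)) ^ K * √(X : ℝ) := by
          apply mul_le_mul_of_nonneg_left _ (by positivity)
          rw [← rpow_natCast, ← rpow_mul (by positivity), sqrt_eq_rpow]
          apply rpow_le_rpow_of_exponent_le (by linarith)
          rw [one_div, inv_mul_le_iff₀ (by positivity)]
          linarith
  have h3 : ((B ∩ Set.Icc 1 X).ncard : ℝ) ≤ B.ncard := by
    exact_mod_cast Set.ncard_le_ncard Set.inter_subset_left hB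
  calc ((B ∩ Set.Icc 1 X).ncard : ℝ) * (log (X : ℝ)) ^ K ≤ B.ncard * ((2 * ((K : ℝ) + 1)) ^ K * √(X : ℝ)) := by
        gcongr
    _ = _ := by ring

lemma Small.le {K K' : ℕ} (hK : K ≤ K') {B : Set ℕ} (h : Small K' B) : Small K B := by
  obtain ⟨C, h⟩ := h
  refine ⟨|C| / (log 2) ^ (K' - K), fun X hX => ?_⟩
  have hX2 : (2:ℝ) ≤ X := by exact_mod_cast hX
  have hlog2 : 0 < log (2 : ℝ) := log_pos (by norm_num)
  have hlog : log (2 : ℝ) ≤ log (X : ℝ) := log_le_log (by norm_num) hX2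
  have hlog0 : 0 < log (X : ℝ) := by linarith
  refine (h X hX).trans ?_
  have e : (log (X : ℝ)) ^ K' = (log (X : ℝ)) ^ (K' - K) * (log (X : ℝ)) ^ K := by
    rw [← pow_add]
    congr 1
    omega
  calc C * √(X : ℝ) / (log (X : ℝ)) ^ K' ≤ |C| * √(X : ℝ) / (log (X : ℝ)) ^ K' := by
        gcongr
        exact le_abs_self C
    _ = |C| / (log (X : ℝ)) ^ (K' - K) * √(X : ℝ) / (log (X : ℝ)) ^ K := by
        rw [e]
        field_simp
    _ ≤ |C| / (log 2) ^ (K' - K) * √(X : ℝ) / (log (X : ℝ)) ^ K := by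
        gcongr

lemma exists_quadratic (α β : ℤ) (hα : α ≠ 0) : ∃ ψ : Polynomial ℚ, ψ.natDegree = 2 ∧
    ∀ a : ℕ, (∃ m : ℤ, m ^ 2 = α * a + β) → a ∈ values ψ := by
  have hα' : (α : ℚ) ≠ 0 := by exact_mod_cast hα
  refine ⟨Polynomial.C (α : ℚ)⁻¹ * Polynomial.X ^ 2 + Polynomial.C 0 * Polynomial.X +
    Polynomial.C (-(β : ℚ) / α), Polynomial.natDegree_quadratic (inv_ne_zero hα'), ?_⟩
  rintro a ⟨m, hm⟩
  refine ⟨m, ?_⟩
  have h1 : (m : ℚ) ^ 2 = α * a + β := by exact_mod_cast hm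
  simp only [Polynomial.eval_add, Polynomial.eval_mul, Polynomial.eval_C, Polynomial.eval_pow,
    Polynomial.eval_X]
  rw [h1]
  field_simp
  ring

/-- The case of one polynomial. -/
theorem single (L K : ℕ) (hL : 1 ≤ L) (A : Set ℕ) (hA : ResidueCondition L A) (φ : Polynomial ℚ)
    (hφ : φ.natDegree = 2) (h : ¬ Small K (A ∩ values φ)) :
    ∃ ψ : Polynomial ℚ, ψ.natDegree = 2 ∧ values φ ⊆ values ψ ∧ (A \ values ψ).Finite ∧
      (A \ values ψ).ncard ≤ K + L - 1 := by
  obtain ⟨α, β, hα, hαβ⟩ := quad φ hφ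
  obtain ⟨ψ, hψ, hψ'⟩ := exists_quadratic α β hα
  refine ⟨ψ, hψ, ?_, ?_⟩
  · rintro a ⟨n, hn⟩
    exact hψ' a (hαβ a ⟨n, hn⟩)
  set E : Set ℕ := {a ∈ A | ¬ IsSquare (α * (a : ℤ) + β)} with hE
  have hsub : A \ values ψ ⊆ E := by
    rintro a ⟨ha, ha'⟩
    refine ⟨ha, fun hs => ha' (hψ' a ?_)⟩
    obtain ⟨m, hm⟩ := hs
    exact ⟨m, by rw [hm]; ring⟩
  -- a large finite subset of `E` is impossible
  have hno : ∀ F : Finset ℕ, (F : Set ℕ) ⊆ E → F.card ≠ K + L := by
    intro F hF hFc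
    obtain ⟨P, hP⟩ := hA
    have hP' : ∀ p : ℕ, p.Prime → P ≤ p → 2 * ((fun a : ℕ => (a : ZMod p)) '' A).ncard ≤ p + L := by
      intro p hp hpP
      have h1 := hP p hp hpP
      have h2 : (2 * (((fun a : ℕ => (a : ZMod p)) '' A).ncard : ℝ)) ≤ p + L := by linarith
      exact_mod_cast h2
    have hcore := core A α β hα L K hL P hP' F (fun f hf => (hF hf).1) hFc (fun f hf => (hF hf).2)
    exact h (small_of_core A (A ∩ values φ) Set.inter_subset_left α β hα K
      (fun a ha => hαβ a (by obtain ⟨n, hn⟩ := ha.2; exact ⟨n, hn⟩)) hcore)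
  have hEfin : E.Finite := by
    by_contra hinf
    obtain ⟨F, hF, hFc⟩ := (show E.Infinite from hinf).exists_subset_card_eq (K + L)
    exact hno F hF hFc
  have hEcard : E.ncard ≤ K + L - 1 := by
    by_contra hlt
    push Not at hlt
    obtain ⟨F, hF, hFc⟩ := Set.exists_subset_card_eq (s := E) (n := K + L) (by omega)
    have hFfin : F.Finite := hEfin.subset hF
    apply hno hFfin.toFinset
    · rw [Set.Finite.coe_toFinset]
      exact hF
    · rw [← Set.ncard_eq_toFinset_card F hFfin]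
      exact hFc
  exact ⟨hEfin.subset hsub, (Set.ncard_le_ncard hsub hEfin).trans hEcard⟩

/-- **Main result.** (1) Let `A` occupy at most `(p + L) / 2` classes modulo every large prime `p`,
let `Φ` be a finite set of quadratic polynomials over `ℚ`, and suppose that the part of `A` in
`⋃ φ(ℤ)` is not `≪ √X / (log X) ^ K`. Then there is a quadratic polynomial `ψ` with
`#(A \ ψ(ℤ)) ≤ K + L - 1`, and `φ(ℤ) ∩ ℕ ⊆ ψ(ℤ)` for some `φ ∈ Φ`.
(2) Q1 is equivalent to its weak form with any exponent `K ≥ 100`. -/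
theorem result :
    (∀ (L K : ℕ) (A : Set ℕ), 1 ≤ L → ResidueCondition L A → ∀ Φ : Finset (Polynomial ℚ),
      (∀ φ ∈ Φ, φ.natDegree = 2) → ¬ Small K (A ∩ ⋃ φ ∈ Φ, values φ) →
      ∃ φ ∈ Φ, ∃ ψ : Polynomial ℚ, ψ.natDegree = 2 ∧ values φ ⊆ values ψ ∧
        (A \ values ψ).Finite ∧ (A \ values ψ).ncard ≤ K + L - 1) ∧
    (∀ K : ℕ, 100 ≤ K → (Question ↔ Weak K)) := by
  constructor
  · intro L K A hL hA Φ hΦ h
    obtain ⟨φ, hφ, hφ'⟩ : ∃ φ ∈ Φ, ¬ Small K (A ∩ values φ) := by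
      by_contra hcon
      push Not at hcon
      apply h
      classical
      have key : ∀ Ψ : Finset (Polynomial ℚ), Ψ ⊆ Φ → Small K (A ∩ ⋃ φ ∈ Ψ, values φ) := by
        intro Ψ
        induction Ψ using Finset.induction_on with
        | empty =>
          intro _
          apply small_of_finite
          simp
        | insert φ Ψ _ ih =>
          intro hsub
          have h1 := hcon φ (hsub (mem_insert_self _ _))
          have h2 := ih ((subset_insert _ _).trans hsub)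
          refine (h1.union h2).mono ?_
          rintro a ⟨ha, ha'⟩
          simp only [Finset.mem_insert, Set.iUnion_iUnion_eq_or_left, Set.mem_union,
            Set.mem_iUnion] at ha'
          rcases ha' with ha' | ha'
          · left; exact ⟨ha, ha'⟩
          · right
            refine ⟨ha, ?_⟩
            simp only [Set.mem_iUnion]
            exact ha'
      exact key Φ (Finset.Subset.refl _)
    obtain ⟨ψ, h1, h2, h3, h4⟩ := single L K hL A hA φ (hΦ φ hφ) hφ'
    exact ⟨φ, hφ, ψ, h1, h2, h3, h4⟩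
  · intro K hK
    constructor
    · intro hQ A hA
      rcases hQ A hA with h | ⟨φ, hφ, hfin⟩
      · left; exact h
      · by_cases hs : Small K (A ∩ values φ)
        · left
          refine ((hs.le hK).union (small_of_finite 100 hfin)).mono ?_
          intro a ha
          by_cases ha' : a ∈ values φ
          · left; exact ⟨ha, ha'⟩
          · right; exact ⟨ha, ha'⟩
        · right; exact ⟨φ, hφ, hs⟩
    · intro hW A hA
      rcases hW A hA with h | ⟨φ, hφ, hs⟩
      · left; exact h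
      · right
        obtain ⟨ψ, h1, _, h3, _⟩ := single 1 K (le_refl 1) A hA φ hφ hs
        exact ⟨ψ, h1, h3⟩

end Pool.Agent.Results.MP_8b36bc_nt.Rigidity
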