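import Pool.Agent.Helper27.IS.Dicho
import Pool.Agent.Results.MP_8b36bc_nt.Rigidity

/-!
# Half-residue sets with a small product set

Let `A` satisfy the half-residue condition and let `B ⊆ A`.  Suppose that for some integers
`α ≠ 0`, `β` and some `δ > 0` the products `(α b + β) (α b' + β)`, `b, b' ∈ B`, occupy at most
`(1 - δ) p` residue classes modulo every large prime `p ≡ 3 (mod 4)`.  Then either
`#(B ∩ [1, X]) ≪ X ^ (1/2 - η)` for some `η > 0`, or `B` is contained in finitely many quadratic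
polynomials, up to finitely many elements; and in the second case, if `B` is not
`≪ √X / (log X) ^ K`, then one quadratic polynomial contains all but at most `K` elements of `A`.
-/

set_option autoImplicit false

open Finset Filter Real

namespace Pool.Agent.Results.MP_8b36bc_nt.ProductSets

/-- `A` occupies at most `(p + 1) / 2` residue classes modulo `p`, for all large primes `p`. -/
def HalfResidue (A : Set ℕ) : Prop :=
  ∃ P : ℕ, ∀ p : ℕ, p.Prime → P ≤ p →
    ((((fun a : ℕ => (a : ZMod p)) '' A).ncard : ℝ) ≤ ((p : ℝ) + 1) / 2)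

/-- `#(B ∩ [1, X]) ≤ C √X / (log X) ^ K` for all `X ≥ 2`. -/
def Small (K : ℕ) (B : Set ℕ) : Prop :=
  ∃ C : ℝ, ∀ X : ℕ, 2 ≤ X →
    ((B ∩ Set.Icc 1 X).ncard : ℝ) ≤ C * Real.sqrt (X : ℝ) / (Real.log (X : ℝ)) ^ K

/-- `#(B ∩ [1, X]) ≤ C X ^ (1 / 2 - η)` for all `X ≥ 2`, for some `η > 0`. -/
def PowerSmall (B : Set ℕ) : Prop :=
  ∃ η : ℝ, 0 < η ∧ ∃ C : ℝ, ∀ X : ℕ, 2 ≤ X →
    ((B ∩ Set.Icc 1 X).ncard : ℝ) ≤ C * (X : ℝ) ^ (1 / 2 - η)

/-- The natural numbers which are values of `φ` at integers. -/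
def values (φ : Polynomial ℚ) : Set ℕ := {a | (a : ℚ) ∈ Set.range (fun n : ℤ => φ.eval (n : ℚ))}

/-- The residue classes modulo `p` of the products `(α b + β) (α b' + β)`, `b, b' ∈ B`. -/
def products (α β : ℤ) (B : Set ℕ) (p : ℕ) : Set (ZMod p) :=
  {x | ∃ b ∈ B, ∃ b' ∈ B, x = (((α * (b : ℤ) + β) * (α * (b' : ℤ) + β) : ℤ) : ZMod p)}

/-- For some integers `α ≠ 0`, `β` and some `δ > 0` the product set of `α B + β` occupies at most
`(1 - δ) p` residue classes modulo every large prime `p ≡ 3 (mod 4)`. -/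
def SmallProducts (B : Set ℕ) : Prop :=
  ∃ α β : ℤ, α ≠ 0 ∧ ∃ δ : ℝ, 0 < δ ∧ ∃ P : ℕ, ∀ p : ℕ, p.Prime → P ≤ p → p % 4 = 3 →
    ((products α β B p).ncard : ℝ) ≤ (1 - δ) * p

/-- The statement Q1. -/
def Question : Prop :=
  ∀ A : Set ℕ, HalfResidue A →
    Small 100 A ∨ ∃ φ : Polynomial ℚ, φ.natDegree = 2 ∧ (A \ values φ).Finite

lemma small_of_power {K : ℕ} {B : Set ℕ} (h : PowerSmall B) : Small K B := by
  obtain ⟨η, hη, C, h⟩ := h
  refine ⟨|C| * (((K : ℝ) + 1) / η) ^ K, fun X hX => ?_⟩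
  have hX2 : (2:ℝ) ≤ X := by exact_mod_cast hX
  have hX0 : (0:ℝ) < X := by linarith
  have hlog : 0 < log (X : ℝ) := log_pos (by linarith)
  have hK1 : (0:ℝ) < (K : ℝ) + 1 := by positivity
  rw [le_div_iff₀ (by positivity)]
  have h1 : log (X : ℝ) ≤ (X : ℝ) ^ (η / ((K : ℝ) + 1)) / (η / ((K : ℝ) + 1)) :=
    log_le_rpow_div (by positivity) (by positivity)
  have h2 : (log (X : ℝ)) ^ K ≤ (((K : ℝ) + 1) / η) ^ K * (X : ℝ) ^ η := by
    calc (log (X : ℝ)) ^ K ≤ ((X : ℝ) ^ (η / ((K : ℝ) + 1)) / (η / ((K : ℝ) + 1))) ^ K := by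
          gcongr
      _ = (((K : ℝ) + 1) / η) ^ K * ((X : ℝ) ^ (η / ((K : ℝ) + 1))) ^ K := by
          rw [← mul_pow]
          congr 1
          field_simp
      _ ≤ (((K : ℝ) + 1) / η) ^ K * (X : ℝ) ^ η := by
          apply mul_le_mul_of_nonneg_left _ (by positivity)
          rw [← rpow_natCast, ← rpow_mul hX0.le]
          apply rpow_le_rpow_of_exponent_le (by linarith)
          rw [div_mul_eq_mul_div, div_le_iff₀ hK1]
          nlinarith
  have h3 : (X : ℝ) ^ (1 / 2 - η) * (X : ℝ) ^ η = √(X : ℝ) := by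
    rw [← rpow_add hX0, sqrt_eq_rpow]
    congr 1
    ring
  calc ((B ∩ Set.Icc 1 X).ncard : ℝ) * (log (X : ℝ)) ^ K
      ≤ (|C| * (X : ℝ) ^ (1 / 2 - η)) * ((((K : ℝ) + 1) / η) ^ K * (X : ℝ) ^ η) := by
        gcongr
        refine (h X hX).trans ?_
        gcongr
        exact le_abs_self C
    _ = |C| * (((K : ℝ) + 1) / η) ^ K * ((X : ℝ) ^ (1 / 2 - η) * (X : ℝ) ^ η) := by ring
    _ = _ := by rw [h3]

lemma halfResidue_mono {A B : Set ℕ} (h : B ⊆ A) (hA : HalfResidue A) : HalfResidue B := by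
  obtain ⟨P, hP⟩ := hA
  refine ⟨P, fun p hp hpP => (?_ : _ ≤ _).trans (hP p hp hpP)⟩
  have : Fact p.Prime := ⟨hp⟩
  exact_mod_cast Set.ncard_le_ncard (Set.image_mono h) (Set.toFinite _)

lemma residueCondition {A : Set ℕ} (hA : HalfResidue A) : Rigidity.ResidueCondition 1 A := by
  obtain ⟨P, hP⟩ := hA
  refine ⟨P, fun p hp hpP => ?_⟩
  have := hP p hp hpP
  simpa using this

/-- The number of squares modulo `p`. -/
lemma ncard_squares (p : ℕ) (hp : p.Prime) : {x : ZMod p | IsSquare x}.ncard ≤ p / 2 + 1 := by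
  have : Fact p.Prime := ⟨hp⟩
  classical
  have h1 : {x : ZMod p | IsSquare x} ⊆
      (((range (p / 2 + 1)).image (fun r : ℕ => (r : ZMod p) ^ 2) : Finset (ZMod p)) : Set (ZMod p)) := by
    rintro x ⟨y, rfl⟩
    rw [Finset.mem_coe, mem_image]
    refine ⟨y.valMinAbs.natAbs, ?_, ?_⟩
    · rw [mem_range]
      have := ZMod.natAbs_valMinAbs_le y
      omega
    · have h2 : (((y.valMinAbs.natAbs : ℕ) : ℤ) : ZMod p) ^ 2 = ((y.valMinAbs : ℤ) : ZMod p) ^ 2 := by
        rw [← Int.cast_pow, ← Int.cast_pow, Int.natAbs_sq]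
      rw [Int.cast_natCast] at h2
      rw [h2, ZMod.coe_valMinAbs, sq]
  calc _ ≤ _ := Set.ncard_le_ncard h1 (Finset.finite_toSet _)
    _ = _ := Set.ncard_coe_finset _
    _ ≤ (range (p / 2 + 1)).card := card_image_le
    _ = _ := card_range _

lemma smallProducts_values (φ : Polynomial ℚ) (hφ : φ.natDegree = 2) (A : Set ℕ) :
    SmallProducts (A ∩ values φ) := by
  obtain ⟨α, β, hα, hαβ⟩ := Pool.Agent.Helper27.IS.quad φ hφ
  refine ⟨α, β, hα, 1 / 4, by norm_num, 4, ?_⟩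
  intro p hp hp4 _
  have hpF : Fact p.Prime := ⟨hp⟩
  have h1 : products α β (A ∩ values φ) p ⊆ {x : ZMod p | IsSquare x} := by
    rintro x ⟨b, hb, b', hb', rfl⟩
    obtain ⟨n, hn⟩ := hb.2
    obtain ⟨n', hn'⟩ := hb'.2
    obtain ⟨m, hm⟩ := hαβ b ⟨n, hn⟩
    obtain ⟨m', hm'⟩ := hαβ b' ⟨n', hn'⟩
    rw [← hm, ← hm']
    refine ⟨((m * m' : ℤ) : ZMod p), ?_⟩
    push_cast
    ring
  have h2 : (products α β (A ∩ values φ) p).ncard ≤ p / 2 + 1 :=
    (Set.ncard_le_ncard h1 (Set.toFinite _)).trans (ncard_squares p hp)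
  have h3 : 4 * (p / 2 + 1) ≤ 3 * p := by omega
  have h4 : ((products α β (A ∩ values φ) p).ncard : ℝ) ≤ ((p / 2 + 1 : ℕ) : ℝ) := by exact_mod_cast h2
  have h5 : 4 * ((p / 2 + 1 : ℕ) : ℝ) ≤ 3 * p := by exact_mod_cast h3
  linarith

/-- **Main result.** (1) If `A` satisfies the half-residue condition, `B ⊆ A` and the product set of
some `α B + β` misses a positive proportion of the residue classes modulo every large prime
`p ≡ 3 (mod 4)`, then `#(B ∩ [1, X]) ≪ X ^ (1/2 - η)` for some `η > 0`, or finitely many quadratic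
polynomials contain all but finitely many elements of `B`; and if `B` is not
`≪ √X / (log X) ^ K`, then one quadratic polynomial contains all elements of `A` with at most `K`
exceptions. (2) For every `K ≥ 100`, Q1 is equivalent to: every `A` with the half-residue condition
is `≪ √X / (log X) ^ 100` or has such a subset `B` that is not `≪ √X / (log X) ^ K`. -/
theorem result :
    (∀ A B : Set ℕ, HalfResidue A → B ⊆ A → SmallProducts B →
      (PowerSmall B ∨ ∃ Φ : Finset (Polynomial ℚ), (∀ φ ∈ Φ, φ.natDegree = 2) ∧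
        (B \ ⋃ φ ∈ Φ, values φ).Finite) ∧
      ∀ K : ℕ, ¬ Small K B → ∃ ψ : Polynomial ℚ, ψ.natDegree = 2 ∧
        (A \ values ψ).Finite ∧ (A \ values ψ).ncard ≤ K) ∧
    (∀ K : ℕ, 100 ≤ K → (Question ↔ ∀ A : Set ℕ, HalfResidue A →
      Small 100 A ∨ ∃ B : Set ℕ, B ⊆ A ∧ SmallProducts B ∧ ¬ Small K B)) := by
  have main : ∀ A B : Set ℕ, HalfResidue A → B ⊆ A → SmallProducts B →
      (PowerSmall B ∨ ∃ Φ : Finset (Polynomial ℚ), (∀ φ ∈ Φ, φ.natDegree = 2) ∧
        (B \ ⋃ φ ∈ Φ, values φ).Finite) ∧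
      ∀ K : ℕ, ¬ Small K B → ∃ ψ : Polynomial ℚ, ψ.natDegree = 2 ∧
        (A \ values ψ).Finite ∧ (A \ values ψ).ncard ≤ K := by
    intro A B hA hBA hB
    obtain ⟨α, β, hα, δ, hδ, P', hW⟩ := hB
    obtain ⟨P, hP⟩ := halfResidue_mono hBA hA
    have hd := Pool.Agent.Helper27.IS.dichotomy B α β hα P hP δ hδ P' hW
    refine ⟨hd, ?_⟩
    intro K hK
    rcases hd with hd | ⟨Φ, hΦ, hfin⟩
    · exact absurd (small_of_power hd) hK
    · have hns : ¬ Rigidity.Small K (A ∩ ⋃ φ ∈ Φ, Rigidity.values φ) := by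
        intro hs
        apply hK
        have h1 : Rigidity.Small K ((A ∩ ⋃ φ ∈ Φ, Rigidity.values φ) ∪ (B \ ⋃ φ ∈ Φ, values φ)) :=
          hs.union (Rigidity.small_of_finite K hfin)
        refine h1.mono ?_
        intro b hb
        by_cases hb' : b ∈ ⋃ φ ∈ Φ, values φ
        · left; exact ⟨hBA hb, hb'⟩
        · right; exact ⟨hb, hb'⟩
      obtain ⟨φ, _, ψ, h1, _, h3, h4⟩ := Rigidity.result.1 1 K A (le_refl 1) (residueCondition hA) Φ hΦ hns
      exact ⟨ψ, h1, h3, h4⟩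
  refine ⟨main, ?_⟩
  intro K hK
  constructor
  · intro hQ A hA
    rcases hQ A hA with h | ⟨φ, hφ, hfin⟩
    · left; exact h
    · by_cases hs : Rigidity.Small K (A ∩ values φ)
      · left
        have h1 : Rigidity.Small 100 ((A ∩ values φ) ∪ (A \ values φ)) :=
          (hs.le hK).union (Rigidity.small_of_finite 100 hfin)
        rw [Set.inter_union_sdiff] at h1
        exact h1
      · right
        exact ⟨A ∩ values φ, Set.inter_subset_left, smallProducts_values φ hφ A, hs⟩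
  · intro hW A hA
    rcases hW A hA with h | ⟨B, hBA, hB, hs⟩
    · left; exact h
    · right
      obtain ⟨ψ, h1, h2, _⟩ := (main A B hA hBA hB).2 K hs
      exact ⟨ψ, h1, h2⟩

end Pool.Agent.Results.MP_8b36bc_nt.ProductSets
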