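import Pool.Agent.Helper27.IS.Rigid
import Pool.Agent.Helper27.IQ.Asm

/-!
# Half-residue sets which contain more than `X ^ (1 / 4)` values of a quadratic polynomial

Let `A ⊆ ℕ` occupy at most `(p + L) / 2` residue classes modulo every large prime `p` (`L = 1` is
the half-residue condition).  If at the scale `T ^ c` a quadratic polynomial `φ` contains at least
`T ^ (c (1 / 4 + δ))` elements of `A`, then a quadratic polynomial `ψ` with `φ(ℤ) ∩ ℕ ⊆ ψ(ℤ)`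
contains all elements of `A` up to `T` with at most `T ^ (1 / 2 - η)` exceptions.  So for the
statement Q1 it is enough to find, at the scales where `A` is large, more than `X ^ (1 / 4 + δ)`
elements of `A` in a quadratic polynomial.
-/

set_option autoImplicit false

open Finset Filter Real Pool.Agent.Helper27.IS

namespace Pool.Agent.Results.MP_8b36bc_nt.QuarterPower

/-- `A` occupies at most `(p + L) / 2` residue classes modulo `p`, for all primes `p ≥ P`. -/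
def Residue (L P : ℕ) (A : Set ℕ) : Prop :=
  ∀ p : ℕ, p.Prime → P ≤ p →
    ((((fun a : ℕ => (a : ZMod p)) '' A).ncard : ℝ) ≤ ((p : ℝ) + L) / 2)

/-- `A` occupies at most `(p + L) / 2` residue classes modulo `p`, for all large primes `p`. -/
def ResidueCondition (L : ℕ) (A : Set ℕ) : Prop := ∃ P : ℕ, Residue L P A

/-- `#(B ∩ [1, X]) ≤ C √X / (log X) ^ K` for all `X ≥ 2`. -/
def Small (K : ℕ) (B : Set ℕ) : Prop :=
  ∃ C : ℝ, ∀ X : ℕ, 2 ≤ X →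
    ((B ∩ Set.Icc 1 X).ncard : ℝ) ≤ C * Real.sqrt (X : ℝ) / (Real.log (X : ℝ)) ^ K

/-- The number of the elements `b ≤ x` of `B`. -/
noncomputable def cnt (B : Set ℕ) (x : ℝ) : ℕ := {b ∈ B | (b : ℝ) ≤ x}.ncard

/-- The natural numbers which are values of `φ` at integers. -/
def values (φ : Polynomial ℚ) : Set ℕ := {a | (a : ℚ) ∈ Set.range (fun n : ℤ => φ.eval (n : ℚ))}

/-- The statement Q1. -/
def Question : Prop :=
  ∀ A : Set ℕ, ResidueCondition 1 A →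
    Small 100 A ∨ ∃ φ : Polynomial ℚ, φ.natDegree = 2 ∧ (A \ values φ).Finite

/-- The weak form of Q1: some quadratic polynomial contains at least `X ^ (1 / 4 + δ)` elements
of `A` up to `X`, for all large `X` with `#(A ∩ [1, X]) ≥ √X / (log X) ^ 100`. -/
def Weak : Prop :=
  ∀ A : Set ℕ, ResidueCondition 1 A →
    Small 100 A ∨ ∃ φ : Polynomial ℚ, φ.natDegree = 2 ∧ ∃ δ : ℝ, 0 < δ ∧ ∀ᶠ X : ℕ in atTop,
      √(X : ℝ) / (log (X : ℝ)) ^ 100 ≤ ((A ∩ Set.Icc 1 X).ncard : ℝ) →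
        (X : ℝ) ^ (1 / 4 + δ) ≤ cnt (A ∩ values φ) X

lemma Small.union {K : ℕ} {B₁ B₂ : Set ℕ} (h₁ : Small K B₁) (h₂ : Small K B₂) :
    Small K (B₁ ∪ B₂) := by
  obtain ⟨C₁, h₁⟩ := h₁
  obtain ⟨C₂, h₂⟩ := h₂
  refine ⟨C₁ + C₂, fun X hX => ?_⟩
  have h3 : ((B₁ ∪ B₂) ∩ Set.Icc 1 X).ncard ≤ (B₁ ∩ Set.Icc 1 X).ncard + (B₂ ∩ Set.Icc 1 X).ncard := by
    rw [Set.union_inter_distrib_right]
    exact Set.ncard_union_le _ _
  have h4 : (((B₁ ∪ B₂) ∩ Set.Icc 1 X).ncard : ℝ) ≤ (B₁ ∩ Set.Icc 1 X).ncard + (B₂ ∩ Set.Icc 1 X).ncard := by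
    exact_mod_cast h3
  have h5 := h₁ X hX
  have h6 := h₂ X hX
  rw [add_mul, add_div]
  linarith

lemma Small.mono {K : ℕ} {B₁ B₂ : Set ℕ} (h : B₁ ⊆ B₂) (h₂ : Small K B₂) : Small K B₁ := by
  obtain ⟨C, h₂⟩ := h₂
  refine ⟨C, fun X hX => ?_⟩
  refine le_trans ?_ (h₂ X hX)
  exact_mod_cast Set.ncard_le_ncard (Set.inter_subset_inter_left _ h)
    ((Set.finite_Icc 1 X).subset Set.inter_subset_right)

lemma small_of_finite (K : ℕ) {B : Set ℕ} (hB : B.Finite) : Small K B := by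
  refine ⟨B.ncard * (2 * (K + 1)) ^ K, fun X hX => ?_⟩
  have hX2 : (2:ℝ) ≤ X := by exact_mod_cast hX
  have hlog : 0 < log (X : ℝ) := log_pos (by linarith)
  rw [le_div_iff₀ (by positivity)]
  have h1 : log (X : ℝ) ≤ (X : ℝ) ^ (1 / (2 * ((K : ℝ) + 1))) / (1 / (2 * ((K : ℝ) + 1))) :=
    log_le_rpow_div (by positivity) (by positivity)
  have h2 : (log (X : ℝ)) ^ K ≤ (2 * ((K : ℝ) + 1)) ^ K * √(X : ℝ) := by
    calc (log (X : ℝ)) ^ K ≤ ((X : ℝ) ^ (1 / (2 * ((K : ℝ) + 1))) / (1 / (2 * ((K : ℝ) + 1)))) ^ K := by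
          gcongr
      _ = (2 * ((K : ℝ) + 1)) ^ K * ((X : ℝ) ^ (1 / (2 * ((K : ℝ) + 1)))) ^ K := by
          rw [div_pow, one_div (2 * ((K : ℝ) + 1)), inv_pow, div_inv_eq_mul, mul_comm]
      _ ≤ (2 * ((K : ℝ) + 1)) ^ K * √(X : ℝ) := by
          apply mul_le_mul_of_nonneg_left _ (by positivity)
          rw [← rpow_natCast, ← rpow_mul (by positivity), sqrt_eq_rpow]
          apply rpow_le_rpow_of_exponent_le (by linarith)
          rw [one_div, inv_mul_le_iff₀ (by positivity)]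
          linarith
  have h3 : ((B ∩ Set.Icc 1 X).ncard : ℝ) ≤ B.ncard := by
    exact_mod_cast Set.ncard_le_ncard Set.inter_subset_left hB
  calc ((B ∩ Set.Icc 1 X).ncard : ℝ) * (log (X : ℝ)) ^ K ≤ B.ncard * ((2 * ((K : ℝ) + 1)) ^ K * √(X : ℝ)) := by
        gcongr
    _ = _ := by ring

lemma Small.le {K K' : ℕ} (hK : K ≤ K') {B : Set ℕ} (h : Small K' B) : Small K B := by
  obtain ⟨C, h⟩ := h
  refine ⟨|C| / (log 2) ^ (K' - K), fun X hX => ?_⟩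
  have hX2 : (2:ℝ) ≤ X := by exact_mod_cast hX
  have hlog2 : 0 < log (2 : ℝ) := log_pos (by norm_num)
  have hlog : log (2 : ℝ) ≤ log (X : ℝ) := log_le_log (by norm_num) hX2
  have hlog0 : 0 < log (X : ℝ) := by linarith
  refine (h X hX).trans ?_
  have e : (log (X : ℝ)) ^ K' = (log (X : ℝ)) ^ (K' - K) * (log (X : ℝ)) ^ K := by
    rw [← pow_add]
    congr 1
    omega
  calc C * √(X : ℝ) / (log (X : ℝ)) ^ K' ≤ |C| * √(X : ℝ) / (log (X : ℝ)) ^ K' := by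
        gcongr
        exact le_abs_self C
    _ = |C| / (log (X : ℝ)) ^ (K' - K) * √(X : ℝ) / (log (X : ℝ)) ^ K := by
        rw [e]
        field_simp
    _ ≤ |C| / (log 2) ^ (K' - K) * √(X : ℝ) / (log (X : ℝ)) ^ K := by
        gcongr

lemma exists_quadratic (α β : ℤ) (hα : α ≠ 0) : ∃ ψ : Polynomial ℚ, ψ.natDegree = 2 ∧
    ∀ a : ℕ, (∃ m : ℤ, m ^ 2 = α * a + β) → a ∈ values ψ := by
  have hα' : (α : ℚ) ≠ 0 := by exact_mod_cast hα
  refine ⟨Polynomial.C (α : ℚ)⁻¹ * Polynomial.X ^ 2 + Polynomial.C 0 * Polynomial.X +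
    Polynomial.C (-(β : ℚ) / α), Polynomial.natDegree_quadratic (inv_ne_zero hα'), ?_⟩
  rintro a ⟨m, hm⟩
  refine ⟨m, ?_⟩
  have h1 : (m : ℚ) ^ 2 = α * a + β := by exact_mod_cast hm
  simp only [Polynomial.eval_add, Polynomial.eval_mul, Polynomial.eval_C, Polynomial.eval_pow,
    Polynomial.eval_X]
  rw [h1]
  field_simp
  ring

/-- The case of one polynomial. -/
theorem single (L K : ℕ) (hL : 1 ≤ L) (A : Set ℕ) (hA : ResidueCondition L A) (φ : Polynomial ℚ)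
    (hφ : φ.natDegree = 2) (h : ¬ Small K (A ∩ values φ)) :
    ∃ ψ : Polynomial ℚ, ψ.natDegree = 2 ∧ values φ ⊆ values ψ ∧ (A \ values ψ).Finite ∧
      (A \ values ψ).ncard ≤ K + L - 1 := by
  obtain ⟨α, β, hα, hαβ⟩ := quad φ hφ
  obtain ⟨ψ, hψ, hψ'⟩ := exists_quadratic α β hα
  refine ⟨ψ, hψ, ?_, ?_⟩
  · rintro a ⟨n, hn⟩
    exact hψ' a (hαβ a ⟨n, hn⟩)
  set E : Set ℕ := {a ∈ A | ¬ IsSquare (α * (a : ℤ) + β)} with hE
  have hsub : A \ values ψ ⊆ E := by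
    rintro a ⟨ha, ha'⟩
    refine ⟨ha, fun hs => ha' (hψ' a ?_)⟩
    obtain ⟨m, hm⟩ := hs
    exact ⟨m, by rw [hm]; ring⟩
  -- a large finite subset of `E` is impossible
  have hno : ∀ F : Finset ℕ, (F : Set ℕ) ⊆ E → F.card ≠ K + L := by
    intro F hF hFc
    obtain ⟨P, hP⟩ := hA
    have hP' : ∀ p : ℕ, p.Prime → P ≤ p → 2 * ((fun a : ℕ => (a : ZMod p)) '' A).ncard ≤ p + L := by
      intro p hp hpP
      have h1 := hP p hp hpP
      have h2 : (2 * (((fun a : ℕ => (a : ZMod p)) '' A).ncard : ℝ)) ≤ p + L := by linarith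
      exact_mod_cast h2
    have hcore := core A α β hα L K hL P hP' F (fun f hf => (hF hf).1) hFc (fun f hf => (hF hf).2)
    exact h (small_of_core A (A ∩ values φ) Set.inter_subset_left α β hα K
      (fun a ha => hαβ a (by obtain ⟨n, hn⟩ := ha.2; exact ⟨n, hn⟩)) hcore)
  have hEfin : E.Finite := by
    by_contra hinf
    obtain ⟨F, hF, hFc⟩ := (show E.Infinite from hinf).exists_subset_card_eq (K + L)
    exact hno F hF hFc
  have hEcard : E.ncard ≤ K + L - 1 := by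
    by_contra hlt
    push Not at hlt
    obtain ⟨F, hF, hFc⟩ := Set.exists_subset_card_eq (s := E) (n := K + L) (by omega)
    have hFfin : F.Finite := hEfin.subset hF
    apply hno hFfin.toFinset
    · rw [Set.Finite.coe_toFinset]
      exact hF
    · rw [← Set.ncard_eq_toFinset_card F hFfin]
      exact hFc
  exact ⟨hEfin.subset hsub, (Set.ncard_le_ncard hsub hEfin).trans hEcard⟩

lemma finite_upto (B : Set ℕ) (x : ℝ) : {b ∈ B | (b : ℝ) ≤ x}.Finite := by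
  refine (Set.finite_Iic ⌊x⌋₊).subset ?_
  rintro b ⟨_, hb⟩
  exact Nat.le_floor hb

lemma icc_le_cnt (B : Set ℕ) (X : ℕ) : (B ∩ Set.Icc 1 X).ncard ≤ cnt B X := by
  apply Set.ncard_le_ncard _ (finite_upto B X)
  rintro b ⟨hb, hb'⟩
  exact ⟨hb, by exact_mod_cast hb'.2⟩

lemma cnt_le_icc (B : Set ℕ) (X : ℕ) : cnt B X ≤ (B ∩ Set.Icc 1 X).ncard + 1 := by
  have h1 : {b ∈ B | (b : ℝ) ≤ (X : ℝ)} ⊆ (B ∩ Set.Icc 1 X) ∪ {0} := by
    rintro b ⟨hb, hb'⟩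
    have hb'' : b ≤ X := by exact_mod_cast hb'
    rcases Nat.eq_zero_or_pos b with h | h
    · right; exact h
    · left; exact ⟨hb, h, hb''⟩
  refine (Set.ncard_le_ncard h1 (((Set.finite_Icc 1 X).subset Set.inter_subset_right).union
    (Set.finite_singleton 0))).trans ?_
  refine (Set.ncard_union_le _ _).trans ?_
  rw [Set.ncard_singleton]

lemma small_of_eventually (K : ℕ) (B : Set ℕ) (C : ℝ)
    (h : ∀ᶠ X : ℕ in atTop, ((B ∩ Set.Icc 1 X).ncard : ℝ) ≤ C * √(X : ℝ) / (log (X : ℝ)) ^ K) :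
    Small K B := by
  obtain ⟨X₁, hX₁⟩ := eventually_atTop.1 h
  set X₂ := max X₁ 2 with hX₂
  refine ⟨max C (X₂ * (log X₂) ^ K), fun X hX => ?_⟩
  have hX2 : (2:ℝ) ≤ X := by exact_mod_cast hX
  have hlog : 0 < log (X : ℝ) := log_pos (by linarith)
  rcases le_total X₁ X with h1 | h1
  · refine (hX₁ X h1).trans ?_
    gcongr
    exact le_max_left _ _
  · have h2 : X ≤ X₂ := h1.trans (le_max_left _ _)
    have h2' : (X : ℝ) ≤ X₂ := by exact_mod_cast h2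
    have h3 : ((B ∩ Set.Icc 1 X).ncard : ℝ) ≤ X := by
      have : (B ∩ Set.Icc 1 X).ncard ≤ (Set.Icc 1 X).ncard :=
        Set.ncard_le_ncard Set.inter_subset_right (Set.finite_Icc 1 X)
      have h4 : (Set.Icc 1 X).ncard = X := by
        rw [← Finset.coe_Icc, Set.ncard_coe_finset, Nat.card_Icc]
        omega
      rw [h4] at this
      exact_mod_cast this
    have h5 : (1:ℝ) ≤ √(X : ℝ) := by
      rw [Real.one_le_sqrt]
      linarith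
    have h6 : (log (X:ℝ)) ^ K ≤ (log (X₂:ℝ)) ^ K := by
      apply pow_le_pow_left₀ hlog.le
      exact log_le_log (by linarith) h2'
    rw [le_div_iff₀ (by positivity)]
    have h7 : 0 ≤ log (X₂ : ℝ) := log_nonneg (by linarith)
    calc ((B ∩ Set.Icc 1 X).ncard : ℝ) * (log (X : ℝ)) ^ K ≤ X₂ * (log X₂) ^ K := by
          apply mul_le_mul (h3.trans h2') h6 (by positivity) (by positivity)
      _ ≤ X₂ * (log X₂) ^ K * √(X : ℝ) := le_mul_of_one_le_right (by positivity) h5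
      _ ≤ _ := by
          gcongr
          exact le_max_right _ _

/-- The quantitative form. -/
theorem quant : ∃ η : ℝ → ℝ → ℝ, (∀ c δ : ℝ, 0 < c → 0 < δ → 0 < η c δ) ∧
    ∀ φ : Polynomial ℚ, φ.natDegree = 2 → ∃ ψ : Polynomial ℚ, ψ.natDegree = 2 ∧
      values φ ⊆ values ψ ∧ ∀ c δ : ℝ, 0 < c → 0 < δ → ∀ L P : ℕ, ∃ T₀ : ℕ, ∀ T : ℕ, T₀ ≤ T →
        ∀ A : Set ℕ, Residue L P A →
          (T : ℝ) ^ (c * (1 / 4 + δ)) ≤ cnt (A ∩ values φ) ((T : ℝ) ^ c) →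
          (cnt (A \ values ψ) T : ℝ) ≤ (T : ℝ) ^ (1 / 2 - η c δ) := by
  classical
  have hex : ∀ c δ : ℝ, ∃ η : ℝ, (0 < c → 0 < δ → (0 < η ∧ ∀ α β : ℤ, 0 < α → ∀ L P₀ : ℕ,
    ∃ T₀ : ℕ, ∀ T : ℕ, T₀ ≤ T → ∀ A : Set ℕ,
      (∀ p : ℕ, p.Prime → P₀ ≤ p → 2 * ((fun a : ℕ => (a : ZMod p)) '' A).ncard ≤ p + L) →
      ∀ B : Finset ℕ, (∀ b ∈ B, b ∈ A ∧ (b : ℝ) ≤ (T : ℝ) ^ c ∧ ∃ m : ℤ, m ^ 2 = α * (b : ℤ) + β) →
      (T : ℝ) ^ (c * (1 / 4 + δ)) ≤ B.card →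
      ∀ E : Finset ℕ, (∀ f ∈ E, f ∈ A ∧ f ≤ T ∧ ¬ IsSquare (α * (f : ℤ) + β)) →
      (E.card : ℝ) ≤ (T : ℝ) ^ (1 / 2 - η))) := by
    intro c δ
    by_cases h : 0 < c ∧ 0 < δ
    · obtain ⟨η, h1, h2⟩ := Pool.Agent.Helper27.IQ.asm h.1 h.2
      exact ⟨η, fun _ _ => ⟨h1, h2⟩⟩
    · exact ⟨1, fun h1 h2 => (h ⟨h1, h2⟩).elim⟩
  choose η hη using hex
  refine ⟨η, fun c δ hc hδ => (hη c δ hc hδ).1, fun φ hφ => ?_⟩
  obtain ⟨α, β, hα, hαβ⟩ := quad φ hφ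
  obtain ⟨ψ, hψ, hψ'⟩ := exists_quadratic α β hα
  have hval : ∀ a : ℕ, a ∈ values φ → ∃ m : ℤ, m ^ 2 = α * (a : ℤ) + β := by
    rintro a ⟨n, hn⟩
    exact hαβ a ⟨n, hn⟩
  refine ⟨ψ, hψ, fun a ha => hψ' a (hval a ha), fun c δ hc hδ L P => ?_⟩
  rcases lt_or_gt_of_ne hα with hneg | hpos
  · -- `φ(ℤ) ∩ ℕ` is finite
    have h1 : ∀ᶠ T : ℕ in atTop, (β.natAbs : ℝ) + 2 ≤ (T : ℝ) ^ (c * (1 / 4 + δ)) :=
      Pool.Agent.Helper27.IQ.ev_ge (by positivity) _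
    obtain ⟨T₀, hT₀⟩ := eventually_atTop.1 h1
    refine ⟨T₀, fun T hT A _ hcon => ?_⟩
    exfalso
    have h2 : {b ∈ A ∩ values φ | (b : ℝ) ≤ (T : ℝ) ^ c} ⊆ Set.Icc 0 β.natAbs := by
      rintro b ⟨⟨_, hb⟩, _⟩
      obtain ⟨m, hm⟩ := hval b hb
      refine ⟨Nat.zero_le _, ?_⟩
      have h3 : 0 ≤ α * (b : ℤ) + β := by rw [← hm]; positivity
      have h4 : α * (b : ℤ) ≤ -1 * (b : ℤ) := mul_le_mul_of_nonneg_right (by omega) (by positivity)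
      omega
    have h5 : cnt (A ∩ values φ) ((T : ℝ) ^ c) ≤ β.natAbs + 1 := by
      refine (Set.ncard_le_ncard h2 (Set.finite_Icc _ _)).trans (le_of_eq ?_)
      rw [← Finset.coe_Icc, Set.ncard_coe_finset, Nat.card_Icc]
      rfl
    have h6 : (cnt (A ∩ values φ) ((T : ℝ) ^ c) : ℝ) ≤ β.natAbs + 1 := by exact_mod_cast h5
    have h7 := hT₀ T hT
    linarith
  · obtain ⟨T₀, hT₀⟩ := (hη c δ hc hδ).2 α β hpos L P
    refine ⟨T₀, fun T hT A hA hcnt => ?_⟩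
    have hA' : ∀ p : ℕ, p.Prime → P ≤ p → 2 * ((fun a : ℕ => (a : ZMod p)) '' A).ncard ≤ p + L := by
      intro p hp hpP
      have h1 := hA p hp hpP
      have h2 : (2 * (((fun a : ℕ => (a : ZMod p)) '' A).ncard : ℝ)) ≤ p + L := by linarith
      exact_mod_cast h2
    have hB := finite_upto (A ∩ values φ) ((T : ℝ) ^ c)
    have hE := finite_upto (A \ values ψ) (T : ℝ)
    have h1 := hT₀ T hT A hA' hB.toFinset ?_ ?_ hE.toFinset ?_
    · rw [← Set.ncard_eq_toFinset_card _ hE] at h1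
      exact h1
    · intro b hb
      rw [Set.Finite.mem_toFinset] at hb
      exact ⟨hb.1.1, hb.2, hval b hb.1.2⟩
    · rw [← Set.ncard_eq_toFinset_card _ hB]
      exact hcnt
    · intro f hf
      rw [Set.Finite.mem_toFinset] at hf
      refine ⟨hf.1.1, by exact_mod_cast hf.2, fun hs => hf.1.2 (hψ' f ?_)⟩
      obtain ⟨m, hm⟩ := hs
      exact ⟨m, by rw [hm]; ring⟩

/-- The case of the small part: the exceptions are negligible. -/
lemma ev_small (K : ℕ) {η : ℝ} (hη : 0 < η) :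
    ∀ᶠ X : ℕ in atTop, (X : ℝ) ^ (1 / 2 - η) ≤ √(X : ℝ) / (log (X : ℝ)) ^ K := by
  have h1 : ∀ᶠ x : ℝ in atTop, ‖log x ^ (K : ℝ)‖ ≤ 1 * ‖x ^ η‖ :=
    (isLittleO_log_rpow_rpow_atTop (K : ℝ) hη).def one_pos
  have h2 : ∀ᶠ X : ℕ in atTop, ‖log (X : ℝ) ^ (K : ℝ)‖ ≤ 1 * ‖(X : ℝ) ^ η‖ :=
    tendsto_natCast_atTop_atTop.eventually h1
  filter_upwards [h2, eventually_ge_atTop 2] with X h3 h4
  have hX : (2 : ℝ) ≤ X := by exact_mod_cast h4
  have hlog : 0 < log (X : ℝ) := log_pos (by linarith)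
  rw [rpow_natCast, norm_of_nonneg (by positivity), norm_of_nonneg (by positivity), one_mul] at h3
  rw [le_div_iff₀ (by positivity), sqrt_eq_rpow]
  calc (X : ℝ) ^ (1 / 2 - η) * log (X : ℝ) ^ K ≤ (X : ℝ) ^ (1 / 2 - η) * (X : ℝ) ^ η := by gcongr
    _ = (X : ℝ) ^ (1 / 2 : ℝ) := by
        rw [← rpow_add (by linarith)]
        congr 1
        ring

theorem many (L K : ℕ) (A : Set ℕ) (hL : 1 ≤ L) (hA : ResidueCondition L A)
    (Φ : Finset (Polynomial ℚ)) (hΦ : ∀ φ ∈ Φ, φ.natDegree = 2) (c δ : ℝ) (hc : 0 < c) (hδ : 0 < δ)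
    (h : ∀ᶠ X : ℕ in atTop, √(X : ℝ) / (log (X : ℝ)) ^ K ≤ ((A ∩ Set.Icc 1 X).ncard : ℝ) →
      ∃ φ ∈ Φ, (X : ℝ) ^ (c * (1 / 4 + δ)) ≤ cnt (A ∩ values φ) ((X : ℝ) ^ c)) :
    Small K A ∨ ∃ φ ∈ Φ, ∃ ψ : Polynomial ℚ, ψ.natDegree = 2 ∧ values φ ⊆ values ψ ∧
      (A \ values ψ).Finite ∧ (A \ values ψ).ncard ≤ K + L - 1 := by
  classical
  obtain ⟨η, hη, hq⟩ := quant
  have hη0 := hη c δ hc hδ
  choose! ψ hψ1 hψ2 hψ3 using hq
  obtain ⟨P, hP⟩ := hA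
  by_cases hex : ∃ φ ∈ Φ, ¬ Small K (A ∩ values (ψ φ))
  · right
    obtain ⟨φ, hφ, hφ'⟩ := hex
    obtain ⟨ψ', h1, h2, h3, h4⟩ := single L K hL A ⟨P, hP⟩ (ψ φ) (hψ1 φ (hΦ φ hφ)) hφ'
    exact ⟨φ, hφ, ψ', h1, (hψ2 φ (hΦ φ hφ)).trans h2, h3, h4⟩
  · left
    push Not at hex
    choose! C hC using hex
    have hT : ∀ φ ∈ Φ, ∃ T₀ : ℕ, ∀ T : ℕ, T₀ ≤ T →
        (T : ℝ) ^ (c * (1 / 4 + δ)) ≤ cnt (A ∩ values φ) ((T : ℝ) ^ c) →
          (cnt (A \ values (ψ φ)) T : ℝ) ≤ (T : ℝ) ^ (1 / 2 - η c δ) := by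
      intro φ hφ
      obtain ⟨T₀, hT₀⟩ := hψ3 φ (hΦ φ hφ) c δ hc hδ L P
      exact ⟨T₀, fun T hT => hT₀ T hT A hP⟩
    choose! T₀ hT₀ using hT
    apply small_of_eventually K A (∑ φ ∈ Φ, |C φ| + 1)
    filter_upwards [h, ev_small K hη0, eventually_ge_atTop (Φ.sup T₀), eventually_ge_atTop 2]
      with X h1 h2 h3 h4
    have hX : (2 : ℝ) ≤ X := by exact_mod_cast h4
    have hlog : 0 < log (X : ℝ) := log_pos (by linarith)
    have hS : 0 ≤ ∑ φ ∈ Φ, |C φ| := Finset.sum_nonneg (fun _ _ => abs_nonneg _)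
    by_cases hsm : √(X : ℝ) / (log (X : ℝ)) ^ K ≤ ((A ∩ Set.Icc 1 X).ncard : ℝ)
    · obtain ⟨φ, hφ, h5⟩ := h1 hsm
      have h6 := hT₀ φ hφ X ((Finset.le_sup hφ).trans h3) h5
      have h7 := hC φ hφ X h4
      have h8 : ((A ∩ Set.Icc 1 X).ncard : ℝ) ≤ ((A ∩ values (ψ φ)) ∩ Set.Icc 1 X).ncard +
          cnt (A \ values (ψ φ)) X := by
        have h9 : A ∩ Set.Icc 1 X = ((A ∩ values (ψ φ)) ∩ Set.Icc 1 X) ∪
            ((A \ values (ψ φ)) ∩ Set.Icc 1 X) := by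
          ext a
          simp only [Set.mem_inter_iff, Set.mem_union, Set.mem_sdiff]
          tauto
        have h10 : (A ∩ Set.Icc 1 X).ncard ≤ ((A ∩ values (ψ φ)) ∩ Set.Icc 1 X).ncard +
            ((A \ values (ψ φ)) ∩ Set.Icc 1 X).ncard := by
          conv_lhs => rw [h9]
          exact Set.ncard_union_le _ _
        have h11 := icc_le_cnt (A \ values (ψ φ)) X
        exact_mod_cast h10.trans (Nat.add_le_add_left h11 _)
      have h12 : |C φ| ≤ ∑ φ ∈ Φ, |C φ| :=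
        Finset.single_le_sum (f := fun φ => |C φ|) (fun _ _ => abs_nonneg _) hφ
      have h13 : C φ * √(X : ℝ) / (log (X : ℝ)) ^ K ≤
          (∑ φ ∈ Φ, |C φ|) * √(X : ℝ) / (log (X : ℝ)) ^ K := by
        gcongr
        exact (le_abs_self _).trans h12
      calc ((A ∩ Set.Icc 1 X).ncard : ℝ) ≤ (∑ φ ∈ Φ, |C φ|) * √(X : ℝ) / (log (X : ℝ)) ^ K +
            √(X : ℝ) / (log (X : ℝ)) ^ K := by linarith
        _ = _ := by ring
    · push Not at hsm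
      refine hsm.le.trans ?_
      gcongr
      nlinarith [Real.sqrt_nonneg (X : ℝ)]

/-- **Main result.** (1) There are `η(c, δ) > 0` (`c, δ > 0`) and for every quadratic polynomial `φ`
over `ℚ` a quadratic polynomial `ψ` with `φ(ℤ) ∩ ℕ ⊆ ψ(ℤ)` such that for all `c`, `δ`, `L`, `P` and
all `T ≥ T₀(φ, c, δ, L, P)`: if `A` occupies at most `(p + L) / 2` classes modulo every prime
`p ≥ P` and at least `T ^ (c (1 / 4 + δ))` elements of `A` up to `T ^ c` are in `φ(ℤ)`, then all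
elements of `A` up to `T` but at most `T ^ (1 / 2 - η)` are in `ψ(ℤ)`.
(2) Let `A` occupy at most `(p + L) / 2` classes modulo every large prime `p` and let `Φ` be a
finite set of quadratic polynomials. Suppose that for all large `X` with
`#(A ∩ [1, X]) ≥ √X / (log X) ^ K` some `φ ∈ Φ` contains at least `X ^ (c (1 / 4 + δ))` elements of
`A` up to `X ^ c`. Then `A` is `≪ √X / (log X) ^ K`, or there is a quadratic polynomial `ψ` with
`#(A \ ψ(ℤ)) ≤ K + L - 1`, and `φ(ℤ) ∩ ℕ ⊆ ψ(ℤ)` for some `φ ∈ Φ`.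
(3) Q1 is equivalent to its weak form. -/
theorem result :
    (∃ η : ℝ → ℝ → ℝ, (∀ c δ : ℝ, 0 < c → 0 < δ → 0 < η c δ) ∧
      ∀ φ : Polynomial ℚ, φ.natDegree = 2 → ∃ ψ : Polynomial ℚ, ψ.natDegree = 2 ∧
        values φ ⊆ values ψ ∧ ∀ c δ : ℝ, 0 < c → 0 < δ → ∀ L P : ℕ, ∃ T₀ : ℕ, ∀ T : ℕ, T₀ ≤ T →
          ∀ A : Set ℕ, Residue L P A →
            (T : ℝ) ^ (c * (1 / 4 + δ)) ≤ cnt (A ∩ values φ) ((T : ℝ) ^ c) →
            (cnt (A \ values ψ) T : ℝ) ≤ (T : ℝ) ^ (1 / 2 - η c δ)) ∧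
    (∀ (L K : ℕ) (A : Set ℕ), 1 ≤ L → ResidueCondition L A → ∀ Φ : Finset (Polynomial ℚ),
      (∀ φ ∈ Φ, φ.natDegree = 2) → ∀ c δ : ℝ, 0 < c → 0 < δ →
      (∀ᶠ X : ℕ in atTop, √(X : ℝ) / (log (X : ℝ)) ^ K ≤ ((A ∩ Set.Icc 1 X).ncard : ℝ) →
        ∃ φ ∈ Φ, (X : ℝ) ^ (c * (1 / 4 + δ)) ≤ cnt (A ∩ values φ) ((X : ℝ) ^ c)) →
      Small K A ∨ ∃ φ ∈ Φ, ∃ ψ : Polynomial ℚ, ψ.natDegree = 2 ∧ values φ ⊆ values ψ ∧
        (A \ values ψ).Finite ∧ (A \ values ψ).ncard ≤ K + L - 1) ∧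
    (Question ↔ Weak) := by
  refine ⟨quant, fun L K A hL hA Φ hΦ c δ hc hδ h => many L K A hL hA Φ hΦ c δ hc hδ h, ?_, ?_⟩
  · intro hQ A hA
    rcases hQ A hA with h | ⟨φ, hφ, hfin⟩
    · left; exact h
    · right
      refine ⟨φ, hφ, 1 / 8, by norm_num, ?_⟩
      have e1 := ev_small 100 (show (0:ℝ) < 1 / 16 by norm_num)
      have e2 := Pool.Agent.Helper27.IQ.ev_ge (show (0:ℝ) < 1 / 16 by norm_num) ((A \ values φ).ncard + 1)
      filter_upwards [e1, e2, eventually_ge_atTop 1] with X h1 h2 h3 h4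
      have hX : (1:ℝ) ≤ X := by exact_mod_cast h3
      have h5 : (A ∩ Set.Icc 1 X).ncard ≤ cnt (A ∩ values φ) X + (A \ values φ).ncard := by
        have h6 : A ∩ Set.Icc 1 X ⊆ {b ∈ A ∩ values φ | (b : ℝ) ≤ (X : ℝ)} ∪ (A \ values φ) := by
          rintro a ⟨ha, ha'⟩
          by_cases hv : a ∈ values φ
          · left; exact ⟨⟨ha, hv⟩, by exact_mod_cast ha'.2⟩
          · right; exact ⟨ha, hv⟩
        exact (Set.ncard_le_ncard h6 ((finite_upto _ _).union hfin)).trans (Set.ncard_union_le _ _)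
      have h7 : ((A ∩ Set.Icc 1 X).ncard : ℝ) ≤ cnt (A ∩ values φ) X + (A \ values φ).ncard := by
        exact_mod_cast h5
      have h8 : (X : ℝ) ^ (1 / 4 + 1 / 8 : ℝ) * (X : ℝ) ^ (1 / 16 : ℝ) = (X : ℝ) ^ (1 / 2 - 1 / 16 : ℝ) := by
        rw [← rpow_add (by linarith)]
        norm_num
      have h9 : 1 ≤ (X : ℝ) ^ (1 / 4 + 1 / 8 : ℝ) := one_le_rpow hX (by norm_num)
      have h10 : (0:ℝ) ≤ (A \ values φ).ncard := Nat.cast_nonneg _
      nlinarith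
  · intro hW A hA
    rcases hW A hA with h | ⟨φ, hφ, δ, hδ, h⟩
    · left; exact h
    · have h0 : ∀ᶠ X : ℕ in atTop, √(X : ℝ) / (log (X : ℝ)) ^ 100 ≤
          ((A ∩ Set.Icc 1 X).ncard : ℝ) → ∃ φ' ∈ ({φ} : Finset (Polynomial ℚ)),
            (X : ℝ) ^ (1 * (1 / 4 + δ)) ≤ cnt (A ∩ values φ') ((X : ℝ) ^ (1 : ℝ)) := by
        filter_upwards [h] with X h4 h5
        refine ⟨φ, by simp, ?_⟩
        rw [one_mul, rpow_one]
        exact h4 h5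
      rcases many 1 100 A le_rfl hA {φ} (by simpa using hφ) 1 δ one_pos hδ h0 with
        h1 | ⟨_, _, ψ, h1, _, h3, _⟩
      · left; exact h1
      · right; exact ⟨ψ, h1, h3⟩

end Pool.Agent.Results.MP_8b36bc_nt.QuarterPower
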